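import Pool.Agent.Helper24_REV.VGF
import Pool.Agent.REV.StmtsV3

set_option autoImplicit false

/-!
# Row VG3: the bounded density for `n = 3` (copy of VGF, which is imported for the `n` free lemmas)
-/

namespace Pool.Agent.REV.H62

open Set MeasureTheory Filter Pool.Agent.REV.H24
open scoped Topology

lemma vg_nonneg {n : ℕ} (hn : 3 ≤ n) {y d : ℝ → ℝ} (hy : ∀ b : ℝ, 0 < b → 0 ≤ y b)
    (hd : ∀ b : ℝ, 0 < b → 0 ≤ d b) (β : ℝ) : 0 ≤ vg n y d β := by
  have hn' : (3 : ℝ) ≤ n := by exact_mod_cast hn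
  by_cases h : 0 < β
  · rw [vg_of_pos n y d h]
    exact mul_nonneg (mul_nonneg (by linarith) (pow_nonneg (hy β h) _)) (hd β h)
  · unfold vg
    rw [if_neg h, zero_pow (by omega), mul_zero, zero_mul]

lemma c3_pos {n : ℕ} (hn : 3 ≤ n) {C : ℝ} (hC : 0 < C) : 0 < c3 n C := by
  have hn' : (3 : ℝ) ≤ n := by exact_mod_cast hn
  unfold c3
  apply div_pos hC
  apply mul_pos <;> linarith

lemma vf_bound_aux {n : ℕ} (hn : 3 ≤ n) {R K K' : ℝ} {y d : ℝ → ℝ} (hR : 0 < R) (hK : 0 ≤ K)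
    (hK' : 0 ≤ K') (hy : ∀ b : ℝ, 0 < b → 0 ≤ y b ∧ y b ≤ K * b ∧ y b ≤ R)
    (hd : ∀ b : ℝ, 0 < b → 0 ≤ d b ∧ d b ≤ K' * min 1 ((b ^ 3)⁻¹)) {β : ℝ} (hβ : 0 < β) :
    β ^ 3 * vg n y d β / cb β ^ (n + 1) ≤
      2 ^ (n + 1) * ((n : ℝ) - 1) * (K ^ (n - 2) + R ^ (n - 2)) * K' := by
  have hn' : (3 : ℝ) ≤ n := by exact_mod_cast hn
  obtain ⟨hy0, hy1, hy2⟩ := hy β hβ
  obtain ⟨hd0, hd1⟩ := hd β hβ
  have hS := vS_pos β
  rw [vg_of_pos n y d hβ]
  obtain ⟨k, rfl⟩ : ∃ k, n = k + 2 := ⟨n - 2, by omega⟩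
  rw [Nat.add_sub_cancel]
  have e : β ^ 3 * (((k + 2 : ℕ) : ℝ) - 1) * y β ^ k * d β / cb β ^ (k + 2 + 1) =
      Real.sqrt (1 + β ^ 2) ^ (k + 3) * (((k + 2 : ℕ) : ℝ) - 1) * y β ^ k * d β / β ^ k := by
    unfold cb
    rw [div_pow, div_div_eq_mul_div, div_eq_div_iff (pow_pos hβ _).ne' (pow_pos hβ _).ne']
    ring
  have e' : β ^ 3 * ((((k + 2 : ℕ) : ℝ) - 1) * y β ^ k * d β) / cb β ^ (k + 2 + 1) =
      β ^ 3 * (((k + 2 : ℕ) : ℝ) - 1) * y β ^ k * d β / cb β ^ (k + 2 + 1) := by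
    congr 1
    ring
  rw [e', e]
  have hn1 : (0 : ℝ) ≤ ((k + 2 : ℕ) : ℝ) - 1 := by linarith
  have hKk : (0 : ℝ) ≤ K ^ k := pow_nonneg hK k
  have hRk : (0 : ℝ) ≤ R ^ k := pow_nonneg hR.le k
  rcases le_total β 1 with h1 | h1
  · have hS2 : Real.sqrt (1 + β ^ 2) ≤ 2 := by
      rw [show (2 : ℝ) = Real.sqrt (2 ^ 2) by rw [Real.sqrt_sq (by norm_num)]]
      apply Real.sqrt_le_sqrt
      nlinarith
    have hSk : Real.sqrt (1 + β ^ 2) ^ (k + 3) ≤ 2 ^ (k + 3) := pow_le_pow_left₀ hS.le hS2 _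
    have hdK : d β ≤ K' := hd1.trans (by
      calc K' * min 1 ((β ^ 3)⁻¹) ≤ K' * 1 := mul_le_mul_of_nonneg_left (min_le_left _ _) hK'
        _ = K' := mul_one _)
    have hyk : y β ^ k / β ^ k ≤ K ^ k := by
      rw [← div_pow]
      apply pow_le_pow_left₀ (div_nonneg hy0 hβ.le)
      rw [div_le_iff₀ hβ]
      exact hy1
    have hyk0 : 0 ≤ y β ^ k / β ^ k := div_nonneg (pow_nonneg hy0 _) (pow_nonneg hβ.le _)
    calc Real.sqrt (1 + β ^ 2) ^ (k + 3) * (((k + 2 : ℕ) : ℝ) - 1) * y β ^ k * d β / β ^ k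
        = (Real.sqrt (1 + β ^ 2) ^ (k + 3) * (((k + 2 : ℕ) : ℝ) - 1)) * (y β ^ k / β ^ k) *
          d β := by ring
      _ ≤ (2 ^ (k + 3) * (((k + 2 : ℕ) : ℝ) - 1)) * (K ^ k + R ^ k) * K' := by
          apply mul_le_mul _ hdK hd0 (by positivity)
          apply mul_le_mul _ (by linarith) hyk0 (by positivity)
          exact mul_le_mul_of_nonneg_right hSk hn1
      _ = 2 ^ (k + 2 + 1) * (((k + 2 : ℕ) : ℝ) - 1) * (K ^ k + R ^ k) * K' := by ring
  · have hS2 : Real.sqrt (1 + β ^ 2) ≤ 2 * β := by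
      rw [show 2 * β = Real.sqrt ((2 * β) ^ 2) by rw [Real.sqrt_sq (by positivity)]]
      apply Real.sqrt_le_sqrt
      nlinarith
    have hSk : Real.sqrt (1 + β ^ 2) ^ (k + 3) ≤ (2 * β) ^ (k + 3) := pow_le_pow_left₀ hS.le hS2 _
    have hdK : d β ≤ K' * (β ^ 3)⁻¹ := hd1.trans
      (mul_le_mul_of_nonneg_left (min_le_right _ _) hK')
    have hyk : y β ^ k ≤ R ^ k := pow_le_pow_left₀ hy0 hy2 _
    have hyk0 : 0 ≤ y β ^ k := pow_nonneg hy0 _
    calc Real.sqrt (1 + β ^ 2) ^ (k + 3) * (((k + 2 : ℕ) : ℝ) - 1) * y β ^ k * d β / β ^ k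
        = (Real.sqrt (1 + β ^ 2) ^ (k + 3) * (((k + 2 : ℕ) : ℝ) - 1)) * y β ^ k *
          (d β / β ^ k) := by ring
      _ ≤ ((2 * β) ^ (k + 3) * (((k + 2 : ℕ) : ℝ) - 1)) * (K ^ k + R ^ k) *
          (K' * (β ^ 3)⁻¹ / β ^ k) := by
          apply mul_le_mul _ (div_le_div_of_nonneg_right hdK (pow_nonneg hβ.le _))
            (div_nonneg hd0 (pow_nonneg hβ.le _)) (by positivity)
          apply mul_le_mul _ (by linarith) hyk0 (by positivity)
          exact mul_le_mul_of_nonneg_right hSk hn1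
      _ = 2 ^ (k + 2 + 1) * (((k + 2 : ℕ) : ℝ) - 1) * (K ^ k + R ^ k) * K' := by
          rw [mul_pow]
          have : β ≠ 0 := hβ.ne'
          field_simp
          ring

lemma vf_prf {n : ℕ} (hn : 3 ≤ n) {C σ R K K' : ℝ} {y d : ℝ → ℝ} (hC : 0 < C) (hσ : 0 < σ)
    (hR : 0 < R) (hK : 0 ≤ K) (hK' : 0 ≤ K') (hyc : ContinuousOn y (Ioi 0))
    (hy : ∀ b : ℝ, 0 < b → 0 ≤ y b ∧ y b ≤ K * b ∧ y b ≤ R) (hdm : Measurable d)
    (hd : ∀ b : ℝ, 0 < b → 0 ≤ d b ∧ d b ≤ K' * min 1 ((b ^ 3)⁻¹)) : Prf (vf n C σ y d) := by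
  have hc := mul_pos hσ (c3_pos hn hC)
  have hg := vg_nonneg hn (fun b hb => (hy b hb).1) (fun b hb => (hd b hb).1)
  refine ⟨?_, ?_, ?_⟩
  · unfold vf
    apply Measurable.ite
    · exact (measurableSet_lt measurable_const measurable_id).inter
        (measurableSet_lt measurable_id measurable_const)
    · apply Measurable.const_mul
      apply Measurable.div
      · exact (vB_measurable.pow_const 3).mul ((vg_measurable n hyc hdm).comp vB_measurable)
      · exact (cb_measurable.comp vB_measurable).pow_const _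
    · exact measurable_const
  · intro x
    unfold vf
    split_ifs with h
    · have hβ := vB_pos h.1 h.2
      exact mul_nonneg hc.le (div_nonneg (mul_nonneg (pow_nonneg hβ.le 3) (hg _))
        (pow_nonneg (cb_pos hβ).le _))
    · exact le_rfl
  · refine ⟨σ * c3 n C * (2 ^ (n + 1) * ((n : ℝ) - 1) * (K ^ (n - 2) + R ^ (n - 2)) * K'), ?_⟩
    have hn' : (3 : ℝ) ≤ n := by exact_mod_cast hn
    intro x
    unfold vf
    split_ifs with h
    · exact mul_le_mul_of_nonneg_left (vf_bound_aux hn hR hK hK' hy hd (vB_pos h.1 h.2)) hc.le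
    · apply mul_nonneg hc.le
      apply mul_nonneg _ hK'
      apply mul_nonneg
      · apply mul_nonneg (by positivity)
        linarith
      · exact add_nonneg (pow_nonneg hK _) (pow_nonneg hR.le _)

lemma vf_yb (hCrc : CrcStmt) {n : ℕ} (hn : 3 ≤ n) (C σ : ℝ) (y d : ℝ → ℝ) {b : ℝ} (hb : 0 < b) :
    yb n (vf n C σ y d) b =
      σ * c3 n C * ∫ β in Ioi (1 / b), wb b β ^ (((n : ℝ) - 2) / 2) * (β * vg n y d β) := by
  have h1 := (hCrc n (vf n C σ y d) (cb b) (cb_pos hb) (cb_le_one hb)).1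
  have h0 : (0 : ℝ) ≤ 1 / b := by positivity
  unfold yb
  rw [h1, ← vX_inv hb, v_subst h0, vX_inv hb, ← integral_const_mul]
  apply setIntegral_congr_fun measurableSet_Ioi
  intro β hβ
  have hβ1 : 1 / b < β := hβ
  have hβ0 : 0 < β := lt_of_le_of_lt h0 hβ1
  show β / Real.sqrt (1 + β ^ 2) ^ 3 *
    ((1 - vX β ^ 2 / cb b ^ 2) ^ (((n : ℝ) - 2) / 2) * vf n C σ y d (vX β)) =
    σ * c3 n C * (wb b β ^ (((n : ℝ) - 2) / 2) * (β * vg n y d β))
  rw [vf_vX n C σ y d hβ0]
  have hw : 0 ≤ wb b β := by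
    unfold wb
    have : 1 < b * β := by
      rw [div_lt_iff₀ hb] at hβ1
      linarith
    have h2 : 1 ≤ (b * β) ^ 2 := by nlinarith
    have h3 := inv_le_one_of_one_le₀ h2
    linarith
  have h2 : 1 - vX β ^ 2 / cb b ^ 2 = cb β ^ 2 * wb b β := by
    rw [vX_sq, cb_sq, cb_sq]
    unfold wb
    field_simp
    ring
  rw [h2, Real.mul_rpow (sq_nonneg _) hw,
    sq_rpow_half (cb_pos hβ0).le (n := n) (k := 2) (by norm_num) (by omega)]
  obtain ⟨k, rfl⟩ : ∃ k, n = k + 2 := ⟨n - 2, by omega⟩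
  rw [Nat.add_sub_cancel]
  have hcb := (cb_pos hβ0).ne'
  have hS := (vS_pos β).ne'
  have h3 : β / Real.sqrt (1 + β ^ 2) ^ 3 * (cb β ^ k * (β ^ 3 / cb β ^ (k + 2 + 1))) = β := by
    rw [show k + 2 + 1 = k + 3 by ring, pow_add, ← mul_div_assoc, mul_div_mul_left _ _
      (pow_ne_zero k hcb)]
    unfold cb
    field_simp
  calc β / Real.sqrt (1 + β ^ 2) ^ 3 * (cb β ^ k * wb b β ^ ((((k + 2 : ℕ) : ℝ) - 2) / 2) *
        (σ * c3 (k + 2) C * (β ^ 3 * vg (k + 2) y d β / cb β ^ (k + 2 + 1))))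
      = σ * c3 (k + 2) C * (wb b β ^ ((((k + 2 : ℕ) : ℝ) - 2) / 2) * vg (k + 2) y d β *
        (β / Real.sqrt (1 + β ^ 2) ^ 3 * (cb β ^ k * (β ^ 3 / cb β ^ (k + 2 + 1))))) := by ring
    _ = σ * c3 (k + 2) C * (wb b β ^ ((((k + 2 : ℕ) : ℝ) - 2) / 2) *
        (β * vg (k + 2) y d β)) := by
      rw [h3]
      ring

lemma vf_H0 {n : ℕ} (hn : 3 ≤ n) (C σ : ℝ) (y d : ℝ → ℝ) :
    H0 n (vf n C σ y d) = σ * c3 n C * ∫ β in Ioi (0 : ℝ), vg n y d β := by
  unfold H0
  have e : vX 0 = 1 := by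
    unfold vX
    norm_num
  have h := v_subst le_rfl (fun x => x * (1 - x ^ 2) ^ (((n : ℝ) - 3) / 2) * vf n C σ y d x)
  rw [e] at h
  rw [h, ← integral_const_mul]
  apply setIntegral_congr_fun measurableSet_Ioi
  intro β hβ
  have hβ0 : 0 < β := hβ
  show β / Real.sqrt (1 + β ^ 2) ^ 3 *
    (vX β * (1 - vX β ^ 2) ^ (((n : ℝ) - 3) / 2) * vf n C σ y d (vX β)) =
    σ * c3 n C * vg n y d β
  rw [vf_vX n C σ y d hβ0]
  have h2 : 1 - vX β ^ 2 = cb β ^ 2 := by
    rw [vX_sq, cb_sq]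
    field_simp
    ring
  rw [h2, sq_rpow_half (cb_pos hβ0).le (n := n) (k := 3) (by norm_num) (by omega)]
  obtain ⟨k, rfl⟩ : ∃ k, n = k + 3 := ⟨n - 3, by omega⟩
  rw [Nat.add_sub_cancel]
  have hcb := (cb_pos hβ0).ne'
  have hS := (vS_pos β).ne'
  have h3 : β / Real.sqrt (1 + β ^ 2) ^ 3 * (vX β * (cb β ^ k * (β ^ 3 / cb β ^ (k + 3 + 1)))) =
      1 := by
    rw [show k + 3 + 1 = k + 4 by ring, pow_add, ← mul_div_assoc, mul_div_mul_left _ _
      (pow_ne_zero k hcb)]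
    unfold cb vX
    field_simp
  calc β / Real.sqrt (1 + β ^ 2) ^ 3 * (vX β * cb β ^ k *
        (σ * c3 (k + 3) C * (β ^ 3 * vg (k + 3) y d β / cb β ^ (k + 3 + 1))))
      = σ * c3 (k + 3) C * (vg (k + 3) y d β *
        (β / Real.sqrt (1 + β ^ 2) ^ 3 * (vX β * (cb β ^ k * (β ^ 3 / cb β ^ (k + 3 + 1)))))) := by
          ring
    _ = σ * c3 (k + 3) C * vg (k + 3) y d β := by
      rw [h3, mul_one]

lemma yb_eq_int (hCrc : CrcStmt) {n : ℕ} (hn : 3 ≤ n) (f : ℝ → ℝ) {b : ℝ} (hb : 0 < b) :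
    yb n f b = ∫ x in (0 : ℝ)..1, max 0 (1 - x ^ 2 / cb b ^ 2) ^ (((n : ℝ) - 2) / 2) * f x := by
  have hn' : (3 : ℝ) ≤ n := by exact_mod_cast hn
  have h1 := (hCrc n f (cb b) (cb_pos hb) (cb_le_one hb)).1
  unfold yb
  rw [h1, intervalIntegral.integral_of_le (cb_pos hb).le,
    intervalIntegral.integral_of_le zero_le_one,
    setIntegral_eq_of_subset_of_forall_diff_eq_zero (s := Ioc 0 (cb b)) measurableSet_Ioc
      (Ioc_subset_Ioc_right (cb_le_one hb))]
  · apply setIntegral_congr_fun measurableSet_Ioc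
    intro x hx
    show (1 - x ^ 2 / cb b ^ 2) ^ (((n : ℝ) - 2) / 2) * f x =
      max 0 (1 - x ^ 2 / cb b ^ 2) ^ (((n : ℝ) - 2) / 2) * f x
    have h2 : x ^ 2 / cb b ^ 2 ≤ 1 := by
      rw [div_le_one (pow_pos (cb_pos hb) 2)]
      exact pow_le_pow_left₀ hx.1.le hx.2 2
    rw [max_eq_right (by linarith)]
  · intro x hx
    have h3 : cb b < x := by
      by_contra hc
      exact hx.2 ⟨hx.1.1, not_lt.1 hc⟩
    have h2 : 1 ≤ x ^ 2 / cb b ^ 2 := by
      rw [one_le_div (pow_pos (cb_pos hb) 2)]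
      exact pow_le_pow_left₀ (cb_pos hb).le h3.le 2
    rw [max_eq_left (by linarith), Real.zero_rpow (by linarith), zero_mul]

lemma yb_continuousAt (hCrc : CrcStmt) {n : ℕ} (hn : 3 ≤ n) {f : ℝ → ℝ} (hf : Prf f) {b : ℝ}
    (hb : 0 < b) : ContinuousAt (yb n f) b := by
  have hn' : (3 : ℝ) ≤ n := by exact_mod_cast hn
  obtain ⟨M, hM⟩ := hf.bdd
  have hcb : ContinuousAt cb b := by
    have hc : ContinuousAt (fun t : ℝ => Real.sqrt (1 + t ^ 2)) b :=
      (Real.continuous_sqrt.comp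
        (by fun_prop : Continuous fun t : ℝ => 1 + t ^ 2)).continuousAt
    have hid : ContinuousAt (fun t : ℝ => t) b := continuousAt_id
    exact hid.div hc (vS_pos b).ne'
  have h1 : ContinuousAt (fun t => ∫ x in (0 : ℝ)..1,
      max 0 (1 - x ^ 2 / cb t ^ 2) ^ (((n : ℝ) - 2) / 2) * f x) b := by
    apply intervalIntegral.continuousAt_of_dominated_interval (bound := fun _ => M)
    · refine Eventually.of_forall fun t => Measurable.aestronglyMeasurable ?_
      apply Measurable.mul _ hf.meas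
      apply Measurable.pow_const
      exact measurable_const.max (measurable_const.sub ((measurable_id.pow_const 2).div_const _))
    · refine Eventually.of_forall fun t => Eventually.of_forall fun x _ => ?_
      have a0 : 0 ≤ max 0 (1 - x ^ 2 / cb t ^ 2) := le_max_left _ _
      have a1 : max 0 (1 - x ^ 2 / cb t ^ 2) ≤ 1 := by
        apply max_le zero_le_one
        have : 0 ≤ x ^ 2 / cb t ^ 2 := div_nonneg (sq_nonneg _) (sq_nonneg _)
        linarith
      have a2 := Real.rpow_nonneg a0 (((n : ℝ) - 2) / 2)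
      have a3 := Real.rpow_le_one a0 a1 (show 0 ≤ ((n : ℝ) - 2) / 2 by linarith)
      rw [Real.norm_eq_abs, abs_of_nonneg (mul_nonneg a2 (hf.nonneg x))]
      calc max 0 (1 - x ^ 2 / cb t ^ 2) ^ (((n : ℝ) - 2) / 2) * f x ≤ 1 * f x :=
            mul_le_mul_of_nonneg_right a3 (hf.nonneg x)
        _ ≤ M := by
            rw [one_mul]
            exact hM x
    · exact intervalIntegrable_const
    · refine Eventually.of_forall fun x _ => ?_
      apply ContinuousAt.mul _ continuousAt_const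
      apply ContinuousAt.rpow_const
      · apply continuousAt_const.max
        apply continuousAt_const.sub
        exact continuousAt_const.div (hcb.pow 2) (pow_ne_zero 2 (cb_pos hb).ne')
      · right
        linarith
  apply h1.congr
  filter_upwards [lt_mem_nhds hb] with t ht
  exact (yb_eq_int hCrc hn f ht).symm

lemma v_ton {n : ℕ} {b : ℝ} (hb : 0 < b) (v1 : ∀ s : ℝ, 1 / b < s → 0 ≤ psd n b s)
    (v2 : ∀ β : ℝ, 1 / b ≤ β → ∫ s in (1 / b)..β, psd n b s = β * wb b β ^ (((n : ℝ) - 2) / 2))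
    {g G : ℝ → ℝ}
    (hg : Measurable g) (hg0 : ∀ β, 0 ≤ g β) (hgi : IntegrableOn g (Ioi 0))
    (hG : ∀ s : ℝ, 0 < s → ∫ β in Ioi s, g β = G s)
    (hi : IntegrableOn (fun s => psd n b s * G s) (Ioi (1 / b))) :
    ∫ β in Ioi (1 / b), wb b β ^ (((n : ℝ) - 2) / 2) * (β * g β) =
      ∫ s in Ioi (1 / b), psd n b s * G s := by
  have hA : 0 < 1 / b := by positivity
  set A := 1 / b with hAdef
  let F : ℝ → ℝ → ℝ := fun s β =>
    if A < s ∧ s < β then psd n b s * g β else 0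
  have hFm : Measurable (Function.uncurry F) := by
    show Measurable (fun p : ℝ × ℝ => if A < p.1 ∧ p.1 < p.2 then psd n b p.1 * g p.2 else 0)
    apply Measurable.ite
    · exact (measurableSet_lt measurable_const measurable_fst).inter
        (measurableSet_lt measurable_fst measurable_snd)
    · exact ((psd_measurable n b).comp measurable_fst).mul (hg.comp measurable_snd)
    · exact measurable_const
  have hF0 : ∀ s β, 0 ≤ F s β := by
    intro s β
    show 0 ≤ if A < s ∧ s < β then psd n b s * g β else 0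
    split_ifs with h
    · exact mul_nonneg (v1 s h.1) (hg0 β)
    · exact le_rfl
  have hs1 : ∀ s, A < s → F s = fun β => psd n b s * (Ioi s).indicator g β := by
    intro s hs
    funext β
    show (if A < s ∧ s < β then psd n b s * g β else 0) = _
    by_cases h : s < β
    · rw [if_pos ⟨hs, h⟩, indicator_of_mem (show β ∈ Ioi s from h)]
    · rw [if_neg (fun hh => h hh.2), indicator_of_notMem (show β ∉ Ioi s from h), mul_zero]
  have hs2 : ∀ s, ¬ A < s → F s = fun _ => 0 := by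
    intro s hs
    funext β
    show (if A < s ∧ s < β then psd n b s * g β else 0) = _
    rw [if_neg (fun hh => hs hh.1)]
  have hsint : ∀ s, ∫ β, F s β = (Ioi A).indicator (fun s => psd n b s * G s) s := by
    intro s
    by_cases hs : A < s
    · rw [hs1 s hs, integral_const_mul, integral_indicator measurableSet_Ioi,
        hG s (hA.trans hs), indicator_of_mem (show s ∈ Ioi A from hs)]
    · rw [hs2 s hs, indicator_of_notMem (show s ∉ Ioi A from hs), integral_zero]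
  have hFi : Integrable (Function.uncurry F) (volume.prod volume) := by
    rw [integrable_prod_iff hFm.aestronglyMeasurable]
    constructor
    · refine Eventually.of_forall fun s => ?_
      show Integrable (F s) volume
      by_cases hs : A < s
      · rw [hs1 s hs]
        exact ((hgi.mono_set (Ioi_subset_Ioi (hA.trans hs).le)).integrable_indicator
          measurableSet_Ioi).const_mul _
      · rw [hs2 s hs]
        exact integrable_zero _ _ _
    · have e : (fun s => ∫ β, ‖Function.uncurry F (s, β)‖) =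
          (Ioi A).indicator (fun s => psd n b s * G s) := by
        funext s
        rw [← hsint s]
        congr 1
        funext β
        show ‖F s β‖ = F s β
        rw [Real.norm_eq_abs, abs_of_nonneg (hF0 s β)]
      rw [e]
      exact hi.integrable_indicator measurableSet_Ioi
  have hsw := integral_integral_swap hFi
  have hβint : ∀ β, ∫ s, F s β =
      (Ioi A).indicator (fun β => wb b β ^ (((n : ℝ) - 2) / 2) * (β * g β)) β := by
    intro β
    by_cases hβ : A < β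
    · rw [indicator_of_mem (show β ∈ Ioi A from hβ)]
      have e : (fun s => F s β) = (Ioo A β).indicator (fun s => psd n b s * g β) := by
        funext s
        show (if A < s ∧ s < β then psd n b s * g β else 0) = _
        by_cases h : A < s ∧ s < β
        · rw [if_pos h, indicator_of_mem (show s ∈ Ioo A β from h)]
        · rw [if_neg h, indicator_of_notMem (show s ∉ Ioo A β from h)]
      rw [e, integral_indicator measurableSet_Ioo, integral_mul_const,
        ← integral_Ioc_eq_integral_Ioo, ← intervalIntegral.integral_of_le hβ.le, v2 β hβ.le]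
      ring
    · rw [indicator_of_notMem (show β ∉ Ioi A from hβ)]
      have e : (fun s => F s β) = fun _ => 0 := by
        funext s
        show (if A < s ∧ s < β then psd n b s * g β else 0) = _
        rw [if_neg (fun hh => hβ (hh.1.trans hh.2))]
      rw [e, integral_zero]
  rw [← integral_indicator measurableSet_Ioi, ← integral_indicator measurableSet_Ioi]
  calc ∫ β, (Ioi A).indicator (fun β => wb b β ^ (((n : ℝ) - 2) / 2) * (β * g β)) β
      = ∫ β, ∫ s, F s β := by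
        congr 1
        funext β
        exact (hβint β).symm
    _ = ∫ s, ∫ β, F s β := hsw.symm
    _ = ∫ s, (Ioi A).indicator (fun s => psd n b s * G s) s := by
        congr 1
        funext s
        exact hsint s

theorem vg3 (hVp3 : Vp3Stmt) (hPd3 : Pd3Stmt) (hCrc : CrcStmt) : Vg3Stmt := by
  intro C σ R K K' y d D hC hσ hR hK hK' hD hym hyc hy hyt hdm hd hyd hI
  have hn : 3 ≤ 3 := le_rfl
  have hg0 := vg_nonneg hn (fun b hb => (hy b hb).1) (fun b hb => (hd b hb).1)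
  have hgm := vg_measurable 3 hyc hdm
  obtain ⟨p1, p2, p3⟩ := hPd3 R K K' y d hK hK' hym hyc hy hyt hdm hd hyd
  have hEq : ∀ a : ℝ, 0 ≤ a → EqOn (fun β : ℝ => 2 * y β * d β) (vg 3 y d) (Ioi a) := by
    intro a ha β hβ
    show 2 * y β * d β = vg 3 y d β
    rw [vg_of_pos 3 y d (lt_of_le_of_lt ha hβ)]
    norm_num
  have q1 : IntegrableOn (vg 3 y d) (Ioi 0) := p1.congr_fun (hEq 0 le_rfl) measurableSet_Ioi
  have q2 : ∫ β in Ioi (0 : ℝ), vg 3 y d β = R ^ 2 := by
    rw [← p2]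
    exact (setIntegral_congr_fun measurableSet_Ioi (hEq 0 le_rfl)).symm
  have q3 : ∀ b : ℝ, 0 < b → ∫ β in Ioi b, vg 3 y d β = R ^ 2 - y b ^ 2 := by
    intro b hb
    rw [← p3 b hb]
    exact (setIntegral_congr_fun measurableSet_Ioi (hEq b hb.le)).symm
  have hprf := vf_prf hn hC hσ hR hK hK' hyc hy hdm hd
  have he : (((3 : ℕ) : ℝ) - 2) / 2 = 1 / 2 := by norm_num
  have h1 : ∀ b : ℝ, 0 < b → b ∉ D → yb 3 (vf 3 C σ y d) b = y b := by
    intro b hb hbD
    have v1 : ∀ s : ℝ, 1 / b < s → 0 ≤ psd 3 b s := fun s hs => ((hVp3 b hb).1 s hs).2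
    have v2 : ∀ β : ℝ, 1 / b ≤ β →
        ∫ s in (1 / b)..β, psd 3 b s = β * wb b β ^ ((((3 : ℕ) : ℝ) - 2) / 2) := by
      intro β hβ
      rw [he]
      exact ((hVp3 b hb).2.2 β hβ).2
    rw [vf_yb hCrc hn C σ y d hb, v_ton hb v1 v2 hgm hg0 q1 q3 (hI b hb hbD).1,
      ← (hI b hb hbD).2]
  refine ⟨vf 3 C σ y d, hprf, ?_, ?_⟩
  · intro b hb
    have hc1 := yb_continuousAt hCrc hn hprf hb
    have hc2 : ContinuousAt y b := hyc.continuousAt (Ioi_mem_nhds hb)
    have hdense : Dense Dᶜ := hD.dense_compl ℝ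
    have hfr : ∃ᶠ x in 𝓝 b, x ∈ Dᶜ := mem_closure_iff_frequently.1 (hdense b)
    apply tendsto_nhds_unique_of_frequently_eq hc1 hc2
    exact (hfr.and_eventually (lt_mem_nhds hb)).mono fun x hx => h1 x hx.2 hx.1
  · rw [vf_H0 hn C σ y d, q2]

end Pool.Agent.REV.H62
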