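import Pool.Agent.REV.StmtsA2
import Pool.Agent.REV.StmtsA1g

/-!
# Row MON of squad REV (problem MP_bbfd73_gt)
-/

set_option autoImplicit false

namespace Pool.Agent.REV.H62

open Set MeasureTheory Pool.Agent.REV

/-- The parameter `c = sqrt (1 - t^2)` is admissible for `g = 0`, `0 < t ≤ 1`. -/
theorem mem_Sg (t : ℝ) (h0 : 0 < t) (h1 : t ≤ 1) : Real.sqrt (1 - t ^ 2) ∈ Sg 0 ∧
    1 + ((0 : ℝ) - 1) * Real.sqrt (1 - t ^ 2) ^ 2 = t ^ 2 := by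
  have hn : 0 ≤ 1 - t ^ 2 := by nlinarith
  have hs : Real.sqrt (1 - t ^ 2) ^ 2 = 1 - t ^ 2 := Real.sq_sqrt hn
  have he : 1 + ((0 : ℝ) - 1) * Real.sqrt (1 - t ^ 2) ^ 2 = t ^ 2 := by
    rw [hs]
    ring
  refine ⟨⟨Real.sqrt_nonneg _, ?_, ?_⟩, he⟩
  · rw [Real.sqrt_le_one]
    have := sq_nonneg t
    linarith
  · rw [he]
    positivity

/-- The value of `t^(i+2) TT f t` for `0 < t ≤ 1`. -/
theorem form (hA : CvagStmt) (hB : CvbgStmt) (n j : ℕ) (C1 C2 : ℝ) (f : ℝ → ℝ) (t : ℝ)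
    (h0 : 0 < t) (h1 : t ≤ 1) :
    t ^ (j + 1 + 2) * TT n (j + 1) C1 C2 f t =
      C1 * (t ^ 2 * RA' n 0 f (Real.sqrt (1 - t ^ 2)) ^ (j + 1)) +
      C2 * (RB' n 0 f (Real.sqrt (1 - t ^ 2)) * RA' n 0 f (Real.sqrt (1 - t ^ 2)) ^ j) := by
  obtain ⟨hS, he⟩ := mem_Sg t h0 h1
  have ha := hA n 0 (Real.sqrt (1 - t ^ 2)) f hS.2.2
  have hb := hB n 0 (Real.sqrt (1 - t ^ 2)) f hS.2.2
  rw [he] at ha hb
  have e1 : ((t ^ 2 : ℝ)) ^ (-(1 / 2) : ℝ) = t⁻¹ := by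
    rw [← Real.rpow_natCast, ← Real.rpow_mul h0.le]
    have : ((2 : ℕ) : ℝ) * (-(1 / 2)) = -1 := by norm_num
    rw [this, Real.rpow_neg_one]
  have e2 : ((t ^ 2 : ℝ)) ^ (-(3 / 2) : ℝ) = (t ^ 3)⁻¹ := by
    rw [← Real.rpow_natCast, ← Real.rpow_mul h0.le]
    have : ((2 : ℕ) : ℝ) * (-(3 / 2)) = -((3 : ℕ) : ℝ) := by norm_num
    rw [this, Real.rpow_neg h0.le, Real.rpow_natCast]
  rw [e1] at ha
  rw [e2] at hb
  have ha' : RA' n 0 f (Real.sqrt (1 - t ^ 2)) = t * RA n f (Real.sqrt (1 - t ^ 2)) := by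
    rw [ha, mul_inv_cancel_left₀ h0.ne']
  have hb' : RB' n 0 f (Real.sqrt (1 - t ^ 2)) = t ^ 3 * RB n f (Real.sqrt (1 - t ^ 2)) := by
    rw [hb, mul_inv_cancel_left₀ (pow_ne_zero 3 h0.ne')]
  rw [ha', hb']
  unfold TT
  rw [Nat.add_sub_cancel]
  ring

/-- Row MON. -/
theorem mon (hA : CvagStmt) (hB : CvbgStmt) (hM : MragStmt) : MonStmt := by
  intro n i C1 C2 f hn hi hC1 hC2 hf hE
  obtain ⟨j, rfl⟩ : ∃ j, i = j + 1 := ⟨i - 1, by omega⟩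
  obtain ⟨hnn, -, hU⟩ := hM n 0 f hn le_rfl hf
  obtain ⟨hAa, hAb⟩ := hU hE
  have hpos : ∀ t : ℝ, 0 < t → t ≤ 1 → 0 ≤ t ^ (j + 1 + 2) * TT n (j + 1) C1 C2 f t := by
    intro t h0 h1
    rw [form hA hB n j C1 C2 f t h0 h1]
    obtain ⟨ha, hb⟩ := hnn _ (mem_Sg t h0 h1).1
    positivity
  intro p hp q hq hpq
  show p ^ (j + 1 + 2) * TT n (j + 1) C1 C2 f p ≤ q ^ (j + 1 + 2) * TT n (j + 1) C1 C2 f q
  rcases hp.1.eq_or_lt with h | h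
  · subst h
    rw [zero_pow (by omega), zero_mul]
    rcases hq.1.eq_or_lt with h | h
    · subst h
      rw [zero_pow (by omega), zero_mul]
    · exact hpos q h hq.2
  · have hq0 : 0 < q := lt_of_lt_of_le h hpq
    rw [form hA hB n j C1 C2 f p h hp.2, form hA hB n j C1 C2 f q hq0 hq.2]
    obtain ⟨ha, hb⟩ := hnn _ (mem_Sg p h hp.2).1
    have hcc : Real.sqrt (1 - q ^ 2) ≤ Real.sqrt (1 - p ^ 2) := by
      apply Real.sqrt_le_sqrt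
      nlinarith
    have h1 := hAa (mem_Sg q hq0 hq.2).1 (mem_Sg p h hp.2).1 hcc
    have h2 := hAb (mem_Sg q hq0 hq.2).1 (mem_Sg p h hp.2).1 hcc
    have h3 : RA' n 0 f (Real.sqrt (1 - p ^ 2)) ^ (j + 1) ≤
        RA' n 0 f (Real.sqrt (1 - q ^ 2)) ^ (j + 1) := pow_le_pow_left₀ ha h1 _
    have h4 : RA' n 0 f (Real.sqrt (1 - p ^ 2)) ^ j ≤
        RA' n 0 f (Real.sqrt (1 - q ^ 2)) ^ j := pow_le_pow_left₀ ha h1 _
    have h5 : p ^ 2 ≤ q ^ 2 := pow_le_pow_left₀ h.le hpq 2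
    apply add_le_add
    · apply mul_le_mul_of_nonneg_left _ hC1
      exact mul_le_mul h5 h3 (pow_nonneg ha _) (sq_nonneg q)
    · apply mul_le_mul_of_nonneg_left _ hC2
      exact mul_le_mul h2 h4 (pow_nonneg ha _) (le_trans hb h2)

end Pool.Agent.REV.H62
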