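import Pool.Agent.REV.StmtsU

/-!
# Row MXL of squad REV (problem MP_bbfd73_gt)
-/

set_option autoImplicit false

namespace Pool.Agent.REV.H62

open Set Filter Pool.Agent.REV
open scoped Topology

theorem pw_le (β : ℝ) (hβ : 1 ≤ β) (x y : ℝ) (hx : 0 ≤ x) (hxy : x ≤ y) (hy : y ≤ 1) :
    y ^ β - x ^ β ≤ β * (y - x) := by
  rcases eq_or_lt_of_le (hx.trans hxy) with h0 | h0
  · have hx0 : x = 0 := le_antisymm (by linarith) hx
    rw [← h0, hx0]
    simp
  · have hb := one_add_mul_self_le_rpow_one_add (s := x / y - 1)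
      (by have := div_nonneg hx h0.le; linarith) hβ
    rw [add_sub_cancel] at hb
    have hxe : x ^ β = y ^ β * (x / y) ^ β := by
      rw [← Real.mul_rpow h0.le (div_nonneg hx h0.le), mul_div_cancel₀ _ h0.ne']
    have hyb : y ^ β ≤ y := by
      have h := Real.rpow_le_rpow_of_exponent_ge h0 hy hβ
      rwa [Real.rpow_one] at h
    have hyb0 : 0 ≤ y ^ β := Real.rpow_nonneg h0.le _
    have h1 : y ^ β * (1 + β * (x / y - 1)) ≤ x ^ β := by
      rw [hxe]
      exact mul_le_mul_of_nonneg_left hb hyb0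
    have hq : 0 ≤ 1 - x / y := by
      have : x / y ≤ 1 := (div_le_one h0).2 hxy
      linarith
    have h2 : y ^ β * (1 - x / y) ≤ y * (1 - x / y) := mul_le_mul_of_nonneg_right hyb hq
    have h3 : y * (1 - x / y) = y - x := by
      rw [mul_sub, mul_one, mul_div_cancel₀ _ h0.ne']
    rw [h3] at h2
    have h4 : β * (y ^ β * (1 - x / y)) ≤ β * (y - x) :=
      mul_le_mul_of_nonneg_left h2 (by linarith)
    linarith

theorem pw_abs (β : ℝ) (hβ : 1 ≤ β) (x y : ℝ) (hx : 0 ≤ x) (hx1 : x ≤ 1) (hy : 0 ≤ y)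
    (hy1 : y ≤ 1) : |x ^ β - y ^ β| ≤ β * |x - y| := by
  rcases le_total x y with h | h
  · have h1 := pw_le β hβ x y hx h hy1
    have h2 : x ^ β ≤ y ^ β := Real.rpow_le_rpow hx h (by linarith)
    rw [abs_of_nonpos (by linarith), abs_of_nonpos (by linarith)]
    linarith
  · have h1 := pw_le β hβ y x hy h hx1
    have h2 : y ^ β ≤ x ^ β := Real.rpow_le_rpow hy h (by linarith)
    rw [abs_of_nonneg (by linarith), abs_of_nonneg (by linarith)]
    linarith

/-- Row MXL. -/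
theorem mxl : MxlStmt := by
  intro n c hn hc
  have hn4 : (4 : ℝ) ≤ (n : ℝ) := by exact_mod_cast hn
  have hβ : 1 ≤ ((n : ℝ) - 2) / 2 := by linarith
  refine ⟨⟨((n : ℝ) - 2) / 2 * (64 / c), by positivity, ?_⟩, ?_⟩
  · intro s u u' hs hs2 hu hu'
    have hup : 0 < u := by linarith
    have hup' : 0 < u' := by linarith
    have h1 : |max (1 - s ^ 2 / u ^ 2) 0 - max (1 - s ^ 2 / u' ^ 2) 0| ≤
        |(1 - s ^ 2 / u ^ 2) - (1 - s ^ 2 / u' ^ 2)| := abs_max_sub_max_le_abs _ _ _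
    have hle : ∀ w : ℝ, max (1 - s ^ 2 / w ^ 2) 0 ≤ 1 := by
      intro w
      apply max_le _ zero_le_one
      have : 0 ≤ s ^ 2 / w ^ 2 := by positivity
      linarith
    have h2 := pw_abs (((n : ℝ) - 2) / 2) hβ (max (1 - s ^ 2 / u ^ 2) 0)
      (max (1 - s ^ 2 / u' ^ 2) 0) (le_max_right _ _) (hle u) (le_max_right _ _) (hle u')
    have ha : u⁻¹ ≤ 2 / c := by
      rw [inv_le_comm₀ hup (by positivity), inv_div]
      exact hu
    have hb : u'⁻¹ ≤ 2 / c := by
      rw [inv_le_comm₀ hup' (by positivity), inv_div]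
      exact hu'
    have ha0 : 0 < u⁻¹ := inv_pos.2 hup
    have hb0 : 0 < u'⁻¹ := inv_pos.2 hup'
    have h3 : (1 - s ^ 2 / u ^ 2) - (1 - s ^ 2 / u' ^ 2) =
        s ^ 2 * (u⁻¹ * u'⁻¹) * (u⁻¹ + u'⁻¹) * (u - u') := by
      field_simp
      ring
    have hs4 : s ^ 2 ≤ 4 * c ^ 2 := by nlinarith
    have hab : u⁻¹ * u'⁻¹ ≤ 2 / c * (2 / c) := mul_le_mul ha hb hb0.le (by positivity)
    have hadd : u⁻¹ + u'⁻¹ ≤ 4 / c := by
      have : (4 : ℝ) / c = 2 / c + 2 / c := by ring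
      linarith
    have h4 : s ^ 2 * (u⁻¹ * u'⁻¹) * (u⁻¹ + u'⁻¹) ≤ 64 / c := by
      have h5 : s ^ 2 * (u⁻¹ * u'⁻¹) ≤ 4 * c ^ 2 * (2 / c * (2 / c)) :=
        mul_le_mul hs4 hab (by positivity) (by positivity)
      have h6 : s ^ 2 * (u⁻¹ * u'⁻¹) * (u⁻¹ + u'⁻¹) ≤ 4 * c ^ 2 * (2 / c * (2 / c)) * (4 / c) :=
        mul_le_mul h5 hadd (by positivity) (by positivity)
      have h7 : 4 * c ^ 2 * (2 / c * (2 / c)) * (4 / c) = 64 / c := by
        field_simp
        ring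
      rw [h7] at h6
      exact h6
    have h5 : |(1 - s ^ 2 / u ^ 2) - (1 - s ^ 2 / u' ^ 2)| ≤ 64 / c * |u - u'| := by
      rw [h3, abs_mul, abs_of_nonneg (by positivity)]
      exact mul_le_mul_of_nonneg_right h4 (abs_nonneg _)
    calc |max (1 - s ^ 2 / u ^ 2) 0 ^ (((n : ℝ) - 2) / 2) -
        max (1 - s ^ 2 / u' ^ 2) 0 ^ (((n : ℝ) - 2) / 2)|
        ≤ ((n : ℝ) - 2) / 2 * |max (1 - s ^ 2 / u ^ 2) 0 - max (1 - s ^ 2 / u' ^ 2) 0| := h2
      _ ≤ ((n : ℝ) - 2) / 2 * (64 / c * |u - u'|) :=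
          mul_le_mul_of_nonneg_left (h1.trans h5) (by linarith)
      _ = ((n : ℝ) - 2) / 2 * (64 / c) * |u - u'| := by ring
  · intro s hs hsc
    have hder : HasDerivAt (fun u : ℝ => 1 - s ^ 2 / u ^ 2) (2 * s ^ 2 / c ^ 3) c := by
      have h1 : HasDerivAt (fun u : ℝ => u ^ 2) (2 * c) c := by
        have h := hasDerivAt_pow 2 c
        simpa using h
      have h2 := ((hasDerivAt_const c (s ^ 2)).div h1 (pow_ne_zero 2 hc.ne')).const_sub 1
      refine h2.congr_deriv ?_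
      field_simp
      ring
    have hcont : ContinuousAt (fun u : ℝ => 1 - s ^ 2 / u ^ 2) c := hder.continuousAt
    split_ifs with h
    · have hpos : 0 < 1 - s ^ 2 / c ^ 2 := by
        have : s ^ 2 / c ^ 2 < 1 := by
          rw [div_lt_one (by positivity)]
          nlinarith
        linarith
      have hev : ∀ᶠ u in 𝓝 c, 0 < 1 - s ^ 2 / u ^ 2 := hcont.eventually_const_lt hpos
      have h3 := hder.rpow_const (p := ((n : ℝ) - 2) / 2) (Or.inl hpos.ne')
      have h4 : HasDerivAt (fun u : ℝ => (1 - s ^ 2 / u ^ 2) ^ (((n : ℝ) - 2) / 2))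
          (((n : ℝ) - 2) / c ^ 3 * (s ^ 2 * (1 - s ^ 2 / c ^ 2) ^ (((n : ℝ) - 4) / 2))) c := by
        refine h3.congr_deriv ?_
        have he : ((n : ℝ) - 2) / 2 - 1 = ((n : ℝ) - 4) / 2 := by ring
        rw [he]
        ring
      refine h4.congr_of_eventuallyEq ?_
      filter_upwards [hev] with u hu
      rw [max_eq_left hu.le]
    · have hlt : c < s := lt_of_le_of_ne (not_lt.1 h) (Ne.symm hsc)
      have hneg : 1 - s ^ 2 / c ^ 2 < 0 := by
        have : 1 < s ^ 2 / c ^ 2 := by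
          rw [one_lt_div (by positivity)]
          nlinarith
        linarith
      have hev : ∀ᶠ u in 𝓝 c, 1 - s ^ 2 / u ^ 2 < 0 := hcont.eventually_lt_const hneg
      refine (hasDerivAt_const c (0 : ℝ)).congr_of_eventuallyEq ?_
      filter_upwards [hev] with u hu
      rw [max_eq_right hu.le, Real.zero_rpow (by linarith)]

end Pool.Agent.REV.H62
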