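import Pool.Agent.REV.StmtsV

/-!
# Row VLL of squad REV (problem MP_bbfd73_gt): the limit function is Lipschitz
-/

set_option autoImplicit false

namespace Pool.Agent.REV.H62

open Set MeasureTheory Filter Pool.Agent.REV
open scoped Topology

/-- Bound of the limit integrals. -/
theorem vll_int (n : ℕ) (hn : 4 ≤ n) (R K : ℝ) (hR : 0 < R) (hK : 0 ≤ K) (y : ℝ → ℝ)
    (hy0 : ∀ b : ℝ, 0 < b → 0 ≤ y b) (hyR : ∀ b : ℝ, 0 < b → y b ≤ R)
    (hyK : ∀ b : ℝ, 0 < b → y b ≤ K * b) (a : ℝ) (ha : 0 < a) :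
    ∫ β in Ioi a, (β ^ 2)⁻¹ * y β ^ (n - 1) ≤ 2 * (K ^ (n - 1) + R ^ (n - 1)) * Real.pi := by
  have hKn : 0 ≤ K ^ (n - 1) := pow_nonneg hK _
  have hRn : 0 ≤ R ^ (n - 1) := pow_nonneg hR.le _
  have hint : Integrable (fun β : ℝ => 2 * (K ^ (n - 1) + R ^ (n - 1)) * (1 + β ^ 2)⁻¹) :=
    integrable_inv_one_add_sq.const_mul _
  have h1 : ∫ β in Ioi a, (β ^ 2)⁻¹ * y β ^ (n - 1) ≤
      ∫ β in Ioi a, 2 * (K ^ (n - 1) + R ^ (n - 1)) * (1 + β ^ 2)⁻¹ := by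
    apply integral_mono_of_nonneg
    · filter_upwards [ae_restrict_mem measurableSet_Ioi] with β hβ
      have hβ0 : 0 < β := lt_trans ha hβ
      have := hy0 β hβ0
      show (0 : ℝ) ≤ (β ^ 2)⁻¹ * y β ^ (n - 1)
      positivity
    · exact hint.integrableOn
    · filter_upwards [ae_restrict_mem measurableSet_Ioi] with β hβ
      have hβ0 : 0 < β := lt_trans ha hβ
      have hyn := hy0 β hβ0
      show (β ^ 2)⁻¹ * y β ^ (n - 1) ≤ 2 * (K ^ (n - 1) + R ^ (n - 1)) * (1 + β ^ 2)⁻¹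
      rcases le_total β 1 with h | h
      · have e1 : y β ^ (n - 1) ≤ (K * β) ^ (n - 1) := pow_le_pow_left₀ hyn (hyK β hβ0) _
        have e2 : (β ^ 2)⁻¹ * (K * β) ^ (n - 1) = K ^ (n - 1) * β ^ (n - 3) := by
          obtain ⟨j, rfl⟩ : ∃ j, n = j + 3 := ⟨n - 3, by omega⟩
          have e3 : j + 3 - 1 = j + 2 := by omega
          have e4 : j + 3 - 3 = j := by omega
          rw [e3, e4, mul_pow]
          field_simp
          ring
        have e5 : β ^ (n - 3) ≤ 1 := pow_le_one₀ hβ0.le h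
        have e6 : (1 : ℝ) ≤ 2 * (1 + β ^ 2)⁻¹ := by
          rw [← div_eq_mul_inv, le_div_iff₀ (by positivity)]
          nlinarith
        calc (β ^ 2)⁻¹ * y β ^ (n - 1) ≤ (β ^ 2)⁻¹ * (K * β) ^ (n - 1) :=
              mul_le_mul_of_nonneg_left e1 (by positivity)
          _ = K ^ (n - 1) * β ^ (n - 3) := e2
          _ ≤ K ^ (n - 1) * 1 := mul_le_mul_of_nonneg_left e5 hKn
          _ ≤ (K ^ (n - 1) + R ^ (n - 1)) * 1 := by linarith
          _ ≤ (K ^ (n - 1) + R ^ (n - 1)) * (2 * (1 + β ^ 2)⁻¹) :=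
              mul_le_mul_of_nonneg_left e6 (by linarith)
          _ = 2 * (K ^ (n - 1) + R ^ (n - 1)) * (1 + β ^ 2)⁻¹ := by ring
      · have e1 : y β ^ (n - 1) ≤ R ^ (n - 1) := pow_le_pow_left₀ hyn (hyR β hβ0) _
        have e6 : (β ^ 2)⁻¹ ≤ 2 * (1 + β ^ 2)⁻¹ := by
          rw [← div_eq_mul_inv, inv_le_comm₀ (by positivity) (by positivity), inv_div,
            div_le_iff₀ (by norm_num)]
          nlinarith
        calc (β ^ 2)⁻¹ * y β ^ (n - 1) ≤ (2 * (1 + β ^ 2)⁻¹) * R ^ (n - 1) :=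
              mul_le_mul e6 e1 (by positivity) (by positivity)
          _ ≤ (2 * (1 + β ^ 2)⁻¹) * (K ^ (n - 1) + R ^ (n - 1)) :=
              mul_le_mul_of_nonneg_left (by linarith) (by positivity)
          _ = 2 * (K ^ (n - 1) + R ^ (n - 1)) * (1 + β ^ 2)⁻¹ := by ring
  have h2 : ∫ β in Ioi a, 2 * (K ^ (n - 1) + R ^ (n - 1)) * (1 + β ^ 2)⁻¹ ≤
      ∫ β : ℝ, 2 * (K ^ (n - 1) + R ^ (n - 1)) * (1 + β ^ 2)⁻¹ := by
    apply setIntegral_le_integral hint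
    refine Eventually.of_forall (fun β => ?_)
    show (0 : ℝ) ≤ 2 * (K ^ (n - 1) + R ^ (n - 1)) * (1 + β ^ 2)⁻¹
    positivity
  have h3 : ∫ β : ℝ, 2 * (K ^ (n - 1) + R ^ (n - 1)) * (1 + β ^ 2)⁻¹ =
      2 * (K ^ (n - 1) + R ^ (n - 1)) * Real.pi := by
    rw [integral_const_mul, integral_univ_inv_one_add_sq]
  rw [h3] at h2
  exact h1.trans h2

/-- Row VLL. -/
theorem vll (vlm : VlmStmt) (vli : VliStmt) : VllStmt := by
  intro n C σ R K F s y D hn hC hσ hR hL hK hyK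
  have hn4 : (4 : ℝ) ≤ (n : ℝ) := by exact_mod_cast hn
  have hyR : ∀ b : ℝ, 0 < b → y b ≤ R := by
    intro b hb
    refine ge_of_tendsto hL.top ((eventually_ge_atTop b).mono fun x hx => ?_)
    exact hL.mono hb (lt_of_lt_of_le hb hx) hx
  obtain ⟨m, hm⟩ : ∃ m : ℝ, m = ((n : ℝ) - 2) / 2 := ⟨_, rfl⟩
  have hm0 : 0 < m := by rw [hm]; linarith
  have hc3 : 0 < c3 n C := by
    unfold c3
    have h1 : 0 < (n : ℝ) - 1 := by linarith
    have h2 : 0 < (n : ℝ) - 2 := by linarith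
    positivity
  obtain ⟨P, hP⟩ : ∃ P : ℝ, P = 2 * (K ^ (n - 1) + R ^ (n - 1)) * Real.pi := ⟨_, rfl⟩
  have hP0 : 0 ≤ P := by rw [hP]; positivity
  obtain ⟨q, hq⟩ : ∃ q : ℝ, q = (4 / 3 : ℝ) ^ m := ⟨_, rfl⟩
  have hq0 : 0 < q := by rw [hq]; positivity
  -- first bound
  have hA : ∀ b b' : ℝ, 0 < b → b ≤ b' → b ∉ D → b' ∉ D → 2 * b' ∉ D →
      y b' - y b ≤ (m * q * 2 * K) * (((b ^ 2)⁻¹ - (b' ^ 2)⁻¹) * b' ^ 3) := by
    intro b b' hb hbb h1 h2 h3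
    have hb' : 0 < b' := lt_of_lt_of_le hb hbb
    have t1 := hL.ylim 1 (by norm_num) b hb h1
    have t2 := hL.ylim 1 (by norm_num) b' hb' h2
    have t3 := hL.ylim 1 (by norm_num) (2 * b') (by positivity) h3
    have hle : y b' - y b ≤ m * ((b ^ 2)⁻¹ - (b' ^ 2)⁻¹) * (b' ^ 2 * (q * y (2 * b'))) := by
      refine le_of_tendsto_of_tendsto' (t2.sub t1)
        (((t3.const_mul q).const_mul (b' ^ 2)).const_mul (m * ((b ^ 2)⁻¹ - (b' ^ 2)⁻¹))) ?_
      intro k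
      have h := (vli n C (s k 0) (F k 0) (F k 1) hn hC (hL.spos k 0) (hL.prf k 0) (hL.prf k 1)
        (hL.st k 0 (by norm_num)) b b' hb hbb).1
      rw [hm, hq, hm]
      exact h
    have hd : 0 ≤ (b ^ 2)⁻¹ - (b' ^ 2)⁻¹ := by
      have : (b' ^ 2)⁻¹ ≤ (b ^ 2)⁻¹ :=
        inv_anti₀ (by positivity) (pow_le_pow_left₀ hb.le hbb 2)
      linarith
    have hy2 := hyK (2 * b') (by positivity)
    calc y b' - y b ≤ m * ((b ^ 2)⁻¹ - (b' ^ 2)⁻¹) * (b' ^ 2 * (q * y (2 * b'))) := hle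
      _ ≤ m * ((b ^ 2)⁻¹ - (b' ^ 2)⁻¹) * (b' ^ 2 * (q * (K * (2 * b')))) := by
          apply mul_le_mul_of_nonneg_left _ (mul_nonneg hm0.le hd)
          apply mul_le_mul_of_nonneg_left _ (by positivity)
          exact mul_le_mul_of_nonneg_left hy2 hq0.le
      _ = (m * q * 2 * K) * (((b ^ 2)⁻¹ - (b' ^ 2)⁻¹) * b' ^ 3) := by ring
  -- second bound
  have hB : ∀ b b' : ℝ, 0 < b → b ≤ b' → b ∉ D → b' ∉ D →
      y b' - y b ≤ (σ * c3 n C * m * P) * ((b ^ 2)⁻¹ - (b' ^ 2)⁻¹) := by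
    intro b b' hb hbb h1 h2
    have hb' : 0 < b' := lt_of_lt_of_le hb hbb
    have ha : 0 < 1 / b' := by positivity
    have t1 := hL.ylim 1 (by norm_num) b hb h1
    have t2 := hL.ylim 1 (by norm_num) b' hb' h2
    obtain ⟨M, hM⟩ := (hL.rlim 0 (by norm_num)).bddAbove_range
    have hM' : ∀ k, RA n (F k 0) 1 ≤ M := fun k => hM ⟨k, rfl⟩
    have hyb : ∀ k (β : ℝ), 0 < β → 0 ≤ yb n (F k 0) β ∧ yb n (F k 0) β ≤ M := by
      intro k β hβ
      obtain ⟨-, -, -, h4, -⟩ := vlm n (F k 0) hn (hL.prf k 0)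
      exact ⟨(h4 β hβ.le).1, (h4 β hβ.le).2.trans (hM' k)⟩
    have hM0 : 0 ≤ M := by
      obtain ⟨h5, h6⟩ := hyb 0 1 one_pos
      exact h5.trans h6
    have hlim : Tendsto (fun k => ∫ β in Ioi (1 / b'), (β ^ 2)⁻¹ * ph n (F k 0) β) atTop
        (𝓝 (∫ β in Ioi (1 / b'), (β ^ 2)⁻¹ * y β ^ (n - 1))) := by
      apply tendsto_integral_of_dominated_convergence
        (fun β => M ^ (n - 1) * (1 + ((1 / b') ^ 2)⁻¹) * (1 + β ^ 2)⁻¹)
      · intro k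
        exact (vli n C (s k 0) (F k 0) (F k 1) hn hC (hL.spos k 0) (hL.prf k 0) (hL.prf k 1)
          (hL.st k 0 (by norm_num)) b b' hb hbb).2.1.aestronglyMeasurable
      · exact (integrable_inv_one_add_sq.const_mul _).integrableOn
      · intro k
        filter_upwards [ae_restrict_mem measurableSet_Ioi] with β hβ
        have hβa : 1 / b' < β := hβ
        have hβ0 : 0 < β := lt_trans ha hβa
        obtain ⟨h5, h6⟩ := hyb k β hβ0
        have h7 : 0 ≤ ph n (F k 0) β := pow_nonneg h5 _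
        have h8 : ph n (F k 0) β ≤ M ^ (n - 1) := pow_le_pow_left₀ h5 h6 _
        rw [Real.norm_eq_abs, abs_of_nonneg (by positivity)]
        have h9 : (β ^ 2)⁻¹ ≤ (1 + ((1 / b') ^ 2)⁻¹) * (1 + β ^ 2)⁻¹ := by
          have h10 : (β ^ 2)⁻¹ ≤ ((1 / b') ^ 2)⁻¹ :=
            inv_anti₀ (by positivity) (pow_le_pow_left₀ ha.le hβa.le 2)
          rw [← div_eq_mul_inv, le_div_iff₀ (by positivity)]
          have h11 : (β ^ 2)⁻¹ * (1 + β ^ 2) = 1 + (β ^ 2)⁻¹ := by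
            field_simp
            ring
          rw [h11]
          linarith
        calc (β ^ 2)⁻¹ * ph n (F k 0) β
            ≤ ((1 + ((1 / b') ^ 2)⁻¹) * (1 + β ^ 2)⁻¹) * M ^ (n - 1) :=
              mul_le_mul h9 h8 h7 (by positivity)
          _ = M ^ (n - 1) * (1 + ((1 / b') ^ 2)⁻¹) * (1 + β ^ 2)⁻¹ := by ring
      · filter_upwards [ae_restrict_mem measurableSet_Ioi,
          ae_restrict_of_ae (hL.cnt.ae_notMem volume)] with β hβ hβD
        have hβ0 : 0 < β := lt_trans ha hβ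
        exact ((hL.ylim 0 (by norm_num) β hβ0 hβD).pow (n - 1)).const_mul _
    have hle : y b' - y b ≤ σ * c3 n C * m * ((b ^ 2)⁻¹ - (b' ^ 2)⁻¹) *
        ∫ β in Ioi (1 / b'), (β ^ 2)⁻¹ * y β ^ (n - 1) := by
      refine le_of_tendsto_of_tendsto' (t2.sub t1)
        (((((hL.slim 0 (by norm_num)).mul_const (c3 n C)).mul_const m).mul_const
          ((b ^ 2)⁻¹ - (b' ^ 2)⁻¹)).mul hlim) ?_
      intro k
      have h := (vli n C (s k 0) (F k 0) (F k 1) hn hC (hL.spos k 0) (hL.prf k 0) (hL.prf k 1)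
        (hL.st k 0 (by norm_num)) b b' hb hbb).2.2
      rw [hm]
      exact h
    have hd : 0 ≤ (b ^ 2)⁻¹ - (b' ^ 2)⁻¹ := by
      have : (b' ^ 2)⁻¹ ≤ (b ^ 2)⁻¹ :=
        inv_anti₀ (by positivity) (pow_le_pow_left₀ hb.le hbb 2)
      linarith
    have hI := vll_int n hn R K hR hK y hL.nonneg hyR hyK (1 / b') ha
    rw [← hP] at hI
    have hcoef : 0 ≤ σ * c3 n C * m * ((b ^ 2)⁻¹ - (b' ^ 2)⁻¹) := by
      apply mul_nonneg _ hd
      positivity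
    calc y b' - y b ≤ σ * c3 n C * m * ((b ^ 2)⁻¹ - (b' ^ 2)⁻¹) *
          ∫ β in Ioi (1 / b'), (β ^ 2)⁻¹ * y β ^ (n - 1) := hle
      _ ≤ σ * c3 n C * m * ((b ^ 2)⁻¹ - (b' ^ 2)⁻¹) * P := mul_le_mul_of_nonneg_left hI hcoef
      _ = (σ * c3 n C * m * P) * ((b ^ 2)⁻¹ - (b' ^ 2)⁻¹) := by ring
  obtain ⟨K3, hK3⟩ : ∃ K3 : ℝ, K3 = m * q * 2 * K + σ * c3 n C * m * P := ⟨_, rfl⟩
  have hk1 : 0 ≤ m * q * 2 * K := by positivity
  have hk2 : 0 ≤ σ * c3 n C * m * P := by positivity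
  have hK30 : 0 ≤ K3 := by rw [hK3]; linarith
  -- the bound off `D`
  have hG : ∀ b b' : ℝ, 0 < b → b ≤ b' → b' ≤ 3 * b → b ∉ D → b' ∉ D → 2 * b' ∉ D →
      y b' - y b ≤ 108 * K3 * (min 1 ((b ^ 3)⁻¹) * (b' - b)) := by
    intro b b' hb hbb hb3 h1 h2 h3
    have hb' : 0 < b' := lt_of_lt_of_le hb hbb
    have hd0 : 0 ≤ b' - b := by linarith
    have hd : (b ^ 2)⁻¹ - (b' ^ 2)⁻¹ ≤ 4 * ((b ^ 3)⁻¹ * (b' - b)) := by
      have e1 : (b ^ 2)⁻¹ - (b' ^ 2)⁻¹ = (b' - b) * ((b' + b) * ((b ^ 2)⁻¹ * (b' ^ 2)⁻¹)) := by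
        field_simp
        ring
      have e2 : (b' ^ 2)⁻¹ ≤ (b ^ 2)⁻¹ :=
        inv_anti₀ (by positivity) (pow_le_pow_left₀ hb.le hbb 2)
      have e3 : (b' + b) * ((b ^ 2)⁻¹ * (b' ^ 2)⁻¹) ≤ (4 * b) * ((b ^ 2)⁻¹ * (b ^ 2)⁻¹) := by
        apply mul_le_mul (by linarith) _ (by positivity) (by positivity)
        exact mul_le_mul_of_nonneg_left e2 (by positivity)
      have e4 : (4 * b) * ((b ^ 2)⁻¹ * (b ^ 2)⁻¹) = 4 * (b ^ 3)⁻¹ := by
        field_simp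
      rw [e1]
      rw [e4] at e3
      calc (b' - b) * ((b' + b) * ((b ^ 2)⁻¹ * (b' ^ 2)⁻¹)) ≤ (b' - b) * (4 * (b ^ 3)⁻¹) :=
            mul_le_mul_of_nonneg_left e3 hd0
        _ = 4 * ((b ^ 3)⁻¹ * (b' - b)) := by ring
    have hpos : 0 ≤ (b ^ 3)⁻¹ * (b' - b) := mul_nonneg (by positivity) hd0
    have f1 : y b' - y b ≤ 108 * K3 * (b' - b) := by
      have g1 := hA b b' hb hbb h1 h2 h3
      have g2 : ((b ^ 2)⁻¹ - (b' ^ 2)⁻¹) * b' ^ 3 ≤ 108 * (b' - b) := by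
        have g3 : b' ^ 3 ≤ 27 * b ^ 3 := by
          have := pow_le_pow_left₀ hb'.le hb3 3
          calc b' ^ 3 ≤ (3 * b) ^ 3 := this
            _ = 27 * b ^ 3 := by ring
        calc ((b ^ 2)⁻¹ - (b' ^ 2)⁻¹) * b' ^ 3 ≤ (4 * ((b ^ 3)⁻¹ * (b' - b))) * b' ^ 3 :=
              mul_le_mul_of_nonneg_right hd (by positivity)
          _ ≤ (4 * ((b ^ 3)⁻¹ * (b' - b))) * (27 * b ^ 3) :=
              mul_le_mul_of_nonneg_left g3 (by positivity)
          _ = 108 * (b' - b) := by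
              field_simp
              ring
      calc y b' - y b ≤ (m * q * 2 * K) * (((b ^ 2)⁻¹ - (b' ^ 2)⁻¹) * b' ^ 3) := g1
        _ ≤ (m * q * 2 * K) * (108 * (b' - b)) := mul_le_mul_of_nonneg_left g2 hk1
        _ ≤ K3 * (108 * (b' - b)) := by
            apply mul_le_mul_of_nonneg_right _ (by linarith)
            rw [hK3]
            linarith
        _ = 108 * K3 * (b' - b) := by ring
    have f2 : y b' - y b ≤ 108 * K3 * ((b ^ 3)⁻¹ * (b' - b)) := by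
      have g1 := hB b b' hb hbb h1 h2
      calc y b' - y b ≤ (σ * c3 n C * m * P) * ((b ^ 2)⁻¹ - (b' ^ 2)⁻¹) := g1
        _ ≤ (σ * c3 n C * m * P) * (4 * ((b ^ 3)⁻¹ * (b' - b))) :=
            mul_le_mul_of_nonneg_left hd hk2
        _ ≤ K3 * (4 * ((b ^ 3)⁻¹ * (b' - b))) := by
            apply mul_le_mul_of_nonneg_right _ (by linarith)
            rw [hK3]
            linarith
        _ ≤ 108 * K3 * ((b ^ 3)⁻¹ * (b' - b)) := by
            have := mul_nonneg hK30 hpos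
            linarith
    rcases min_choice 1 ((b ^ 3)⁻¹) with h | h
    · rw [h, one_mul]
      exact f1
    · rw [h]
      exact f2
  refine ⟨108 * K3, by positivity, ?_⟩
  intro b b' hb hbb hb2
  have hb' : 0 < b' := lt_of_lt_of_le hb hbb
  by_contra hcon
  have hcon' := not_le.1 hcon
  -- continuity of the right side
  have hcont : ContinuousAt (fun p : ℝ × ℝ => 108 * K3 * (min 1 ((p.1 ^ 3)⁻¹) * (p.2 - p.1)))
      (b, b') := by
    have c1 : ContinuousAt (fun p : ℝ × ℝ => (p.1 ^ 3)⁻¹) (b, b') :=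
      (continuousAt_fst.pow 3).inv₀ (pow_ne_zero 3 hb.ne')
    have c2 : ContinuousAt (fun p : ℝ × ℝ => min 1 ((p.1 ^ 3)⁻¹)) (b, b') :=
      continuousAt_const.min c1
    exact continuousAt_const.mul (c2.mul (continuousAt_snd.sub continuousAt_fst))
  have hlt : (fun p : ℝ × ℝ => 108 * K3 * (min 1 ((p.1 ^ 3)⁻¹) * (p.2 - p.1))) (b, b') <
      y b' - y b := by
    show 108 * K3 * (min 1 ((b ^ 3)⁻¹) * (b' - b)) < y b' - y b
    rw [← mul_assoc]
    exact hcon'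
  have hev := hcont.eventually_lt_const hlt
  obtain ⟨δ, hδ, hball⟩ := Metric.eventually_nhds_iff.1 hev
  obtain ⟨D', hD'⟩ : ∃ D' : Set ℝ, D' = D ∪ (fun x : ℝ => 2 * x) ⁻¹' D := ⟨_, rfl⟩
  have hD'c : D'.Countable := by
    rw [hD']
    exact hL.cnt.union (hL.cnt.preimage (mul_right_injective₀ (two_ne_zero)))
  have hdense : Dense D'ᶜ := hD'c.dense_compl ℝ
  obtain ⟨ε, hε, hεδ, hεb⟩ : ∃ ε : ℝ, 0 < ε ∧ ε < δ ∧ 4 * ε ≤ b := by
    refine ⟨min (δ / 2) (b / 4), by positivity, ?_, ?_⟩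
    · exact lt_of_le_of_lt (min_le_left _ _) (by linarith)
    · have := min_le_right (δ / 2) (b / 4)
      linarith
  obtain ⟨x, hxD, hx1, hx2⟩ := hdense.exists_between (show b - ε < b by linarith)
  obtain ⟨x', hxD', hx1', hx2'⟩ := hdense.exists_between (show b' < b' + ε by linarith)
  have hx0 : 0 < x := by linarith
  have hx0' : 0 < x' := by linarith
  have hm1 : y x ≤ y b := hL.mono hx0 hb hx2.le
  have hm2 : y b' ≤ y x' := hL.mono hb' hx0' hx1'.le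
  rw [hD'] at hxD hxD'
  have hn1 : x ∉ D := fun h => hxD (Or.inl h)
  have hn2 : x' ∉ D := fun h => hxD' (Or.inl h)
  have hn3 : 2 * x' ∉ D := fun h => hxD' (Or.inr h)
  have hfin := hG x x' hx0 (by linarith) (by linarith) hn1 hn2 hn3
  have hdist : dist (x, x') (b, b') < δ := by
    rw [Prod.dist_eq, max_lt_iff, Real.dist_eq, Real.dist_eq]
    refine ⟨?_, ?_⟩
    · show |x - b| < δ
      rw [abs_lt]
      constructor <;> linarith
    · show |x' - b'| < δ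
      rw [abs_lt]
      constructor <;> linarith
  have hfin2 := hball hdist
  simp only at hfin2
  linarith

end Pool.Agent.REV.H62
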