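import Pool.Agent.REV.StmtsG
import Pool.Agent.BPH.Sph
import Pool.Agent.BPH.Tex

/-!
# Row AVM of squad REV (problem MP_bbfd73_gt)
-/

set_option autoImplicit false

open MeasureTheory Module Set Filter
open scoped RealInnerProductSpace Pointwise Topology ENNReal

namespace Pool.Agent.REV.H62

open Pool.Agent.BPH Pool.Agent.REV

/-- Row AVM. -/
theorem avm : AvmStmt := by
  intro E _ _ _ _ _ e f hf hf0 C hC
  haveI : IsProbabilityMeasure (sph E) := sph_facts.prob
  have hP : Measurable (fun q : ℝ × E => nrm ((ℝ ∙ e)ᗮ.starProjection q.2)) :=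
    tex_nrm_meas.comp (((ℝ ∙ e)ᗮ.starProjection).continuous.measurable.comp measurable_snd)
  have hs : Measurable (fun q : ℝ × E => Real.sqrt (1 - q.1 ^ 2)) :=
    ((measurable_const.sub (measurable_fst.pow_const 2))).sqrt
  have h1 : Measurable (fun q : ℝ × E => q.1 • e) := measurable_fst.smul_const e
  have h2 : Measurable (fun q : ℝ × E => (-q.1) • e) := measurable_fst.neg.smul_const e
  have hj : Measurable (fun q : ℝ × E =>
      (f (q.1 • e + Real.sqrt (1 - q.1 ^ 2) • nrm ((ℝ ∙ e)ᗮ.starProjection q.2)) +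
        f ((-q.1) • e + Real.sqrt (1 - q.1 ^ 2) • nrm ((ℝ ∙ e)ᗮ.starProjection q.2))) / 2) :=
    ((hf.comp (h1.add (hs.smul hP))).add (hf.comp (h2.add (hs.smul hP)))).div_const 2
  refine ⟨?_, ?_⟩
  · have h := hj.stronglyMeasurable.integral_prod_right' (ν := sph E)
    exact h.measurable
  · intro τ
    unfold av mS
    refine ⟨?_, ?_⟩
    · apply integral_nonneg
      intro x
      have ha := hf0 (τ • e + Real.sqrt (1 - τ ^ 2) • nrm ((ℝ ∙ e)ᗮ.starProjection x))
      have hb := hf0 ((-τ) • e + Real.sqrt (1 - τ ^ 2) • nrm ((ℝ ∙ e)ᗮ.starProjection x))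
      show (0 : ℝ) ≤ (f (τ • e + Real.sqrt (1 - τ ^ 2) • nrm ((ℝ ∙ e)ᗮ.starProjection x)) +
        f ((-τ) • e + Real.sqrt (1 - τ ^ 2) • nrm ((ℝ ∙ e)ᗮ.starProjection x))) / 2
      linarith
    · have hle : ∫ x, (f (τ • e + Real.sqrt (1 - τ ^ 2) • nrm ((ℝ ∙ e)ᗮ.starProjection x)) +
          f ((-τ) • e + Real.sqrt (1 - τ ^ 2) • nrm ((ℝ ∙ e)ᗮ.starProjection x))) / 2 ∂sph E ≤
          ∫ _x : E, C ∂sph E := by
        apply integral_mono_of_nonneg
        · refine Eventually.of_forall (fun x => ?_)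
          have ha := hf0 (τ • e + Real.sqrt (1 - τ ^ 2) • nrm ((ℝ ∙ e)ᗮ.starProjection x))
          have hb := hf0 ((-τ) • e + Real.sqrt (1 - τ ^ 2) • nrm ((ℝ ∙ e)ᗮ.starProjection x))
          show (0 : ℝ) ≤ (f (τ • e + Real.sqrt (1 - τ ^ 2) • nrm ((ℝ ∙ e)ᗮ.starProjection x)) +
            f ((-τ) • e + Real.sqrt (1 - τ ^ 2) • nrm ((ℝ ∙ e)ᗮ.starProjection x))) / 2
          linarith
        · exact integrable_const C
        · refine Eventually.of_forall (fun x => ?_)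
          have ha := hC (τ • e + Real.sqrt (1 - τ ^ 2) • nrm ((ℝ ∙ e)ᗮ.starProjection x))
          have hb := hC ((-τ) • e + Real.sqrt (1 - τ ^ 2) • nrm ((ℝ ∙ e)ᗮ.starProjection x))
          show (f (τ • e + Real.sqrt (1 - τ ^ 2) • nrm ((ℝ ∙ e)ᗮ.starProjection x)) +
            f ((-τ) • e + Real.sqrt (1 - τ ^ 2) • nrm ((ℝ ∙ e)ᗮ.starProjection x))) / 2 ≤ C
          linarith
      rw [integral_const] at hle
      simpa using hle

end Pool.Agent.REV.H62
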